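import Pool.Agent.H618R3.BM.Defs

/-!
# Homogeneous quasimorphisms and a criterion for non-amenability
-/

set_option autoImplicit false
open Set Topology

namespace Pool.Agent.H618R3.BM

/-- If the kernel of a surjection onto the integers consists of commutators of `H`, then every
homogeneous quasimorphism on `H` is a homomorphism. -/
theorem quasi_hom {H : Type} [Group H] (κ : H →* Multiplicative ℤ) (s : H)
    (hs : κ s = Multiplicative.ofAdd 1)
    (hker : ∀ p : H, κ p = 1 → ∃ a b : H, p = a * b * a⁻¹ * b⁻¹)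
    (φ : H → ℝ) (hφ : IsHomogeneousQuasimorphism φ) (g h : H) : φ (g * h) = φ g + φ h := by
  obtain ⟨⟨D, hD⟩, hhom⟩ := hφ
  have hinv : ∀ a, φ a⁻¹ = - φ a := fun a => by
    have := hhom a (-1)
    rw [zpow_neg, zpow_one] at this
    rw [this]; push_cast; ring
  -- bounded implies zero
  have hbz : ∀ (x B : ℝ), (∀ n : ℕ, |(n : ℝ) * x| ≤ B) → x = 0 := by
    intro x B hB
    by_contra hx
    obtain ⟨n, hn⟩ := exists_nat_gt (B / |x|)
    have h1 := hB n
    rw [abs_mul, Nat.abs_cast] at h1
    have h2 : 0 < |x| := abs_pos.mpr hx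
    rw [div_lt_iff₀ h2] at hn
    linarith
  have hcomm : ∀ a b : H, |φ (a * b * a⁻¹ * b⁻¹)| ≤ 3 * D := by
    intro a b
    have h1 := abs_le.mp (hD (a * b * a⁻¹) b⁻¹)
    have h2 := abs_le.mp (hD (a * b) a⁻¹)
    have h3 := abs_le.mp (hD a b)
    rw [hinv] at h1 h2
    rw [abs_le]
    constructor <;> linarith [h1.1, h1.2, h2.1, h2.2, h3.1, h3.2]
  have hP : ∀ p : H, κ p = 1 → φ p = 0 := by
    intro p hp
    refine hbz _ (3 * D) fun n => ?_
    have h1 : κ (p ^ (n : ℤ)) = 1 := by rw [map_zpow, hp, one_zpow]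
    obtain ⟨a, b, hab⟩ := hker _ h1
    have h2 := hhom p n
    rw [Int.cast_natCast] at h2
    rw [← h2, hab]
    exact hcomm a b
  -- the formula
  have hform : ∀ x : H, φ x = (Multiplicative.toAdd (κ x) : ℤ) * φ s := by
    intro x
    set k : ℤ := Multiplicative.toAdd (κ x) with hk
    have hκ : ∀ (y : H) , κ (y * s ^ (-(Multiplicative.toAdd (κ y) : ℤ))) = 1 := by
      intro y
      rw [map_mul, map_zpow, hs]
      apply Multiplicative.toAdd.injective
      simp
    have hclose : ∀ y : H, |φ y - (Multiplicative.toAdd (κ y) : ℤ) * φ s| ≤ D := by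
      intro y
      set m : ℤ := Multiplicative.toAdd (κ y) with hm
      have h1 := hD (y * s ^ (-m)) (s ^ m)
      rw [mul_assoc, ← zpow_add, neg_add_cancel, zpow_zero, mul_one, hP _ (hκ y), hhom] at h1
      simpa using h1
    have := hbz (φ x - k * φ s) D fun n => by
      have h1 := hclose (x ^ (n : ℤ))
      rw [hhom, map_zpow] at h1
      have h2 : (Multiplicative.toAdd ((κ x) ^ (n : ℤ)) : ℤ) = n * k := by
        rw [toAdd_zpow]; simp [hk]
      rw [h2] at h1
      push_cast at h1
      rw [mul_sub, ← mul_assoc]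
      exact h1
    linarith
  rw [hform g, hform h, hform (g * h), map_mul, toAdd_mul]
  push_cast
  ring

/-- Transport to a quotient. -/
theorem quasi_hom_of_surj {G H : Type} [Group G] [Group H] (π : G →* H)
    (hπ : Function.Surjective π) (κ : G →* Multiplicative ℤ) (s : G)
    (hs : κ s = Multiplicative.ofAdd 1)
    (hker : ∀ p : G, κ p = 1 → ∃ a b : G, p = a * b * a⁻¹ * b⁻¹)
    (φ : H → ℝ) (hφ : IsHomogeneousQuasimorphism φ) (g h : H) : φ (g * h) = φ g + φ h := by
  obtain ⟨a, rfl⟩ := hπ g
  obtain ⟨b, rfl⟩ := hπ h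
  have h1 : IsHomogeneousQuasimorphism (fun x => φ (π x)) := by
    obtain ⟨⟨D, hD⟩, hhom⟩ := hφ
    refine ⟨⟨D, fun x y => ?_⟩, fun x n => ?_⟩
    · have := hD (π x) (π y)
      rwa [← map_mul] at this
    · change φ (π (x ^ n)) = _
      rw [map_zpow, hhom]
  have h2 := quasi_hom κ s hs hker _ h1 a b
  rw [← map_mul]
  exact h2

/-- A finitely additive measure on a set `Y` with a colouring `c : Y → ℤ`, invariant under a map
which shifts the colour by one and under a map which maps the colours divisible by three onto the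
even colours, does not exist. -/
theorem no_mean {Y : Type} (m : Set Y → ℝ) (huniv : m univ = 1)
    (hadd : ∀ A B, Disjoint A B → m (A ∪ B) = m A + m B) (t p : Y → Y) (c : Y → ℤ)
    (ht : ∀ A, m (t ⁻¹' A) = m A) (hp : ∀ A, m (p ⁻¹' A) = m A)
    (hct : ∀ y, c (t y) = c y + 1) (hcp : ∀ y, c (p y) % 2 = 0 ↔ c y % 3 = 0) : False := by
  have e2 : m {y | c y % 2 = 0} = 1 / 2 := by
    have h1 := ht {y | c y % 2 = 0}
    have h2 : t ⁻¹' {y | c y % 2 = 0} = {y | c y % 2 = 1} := by
      ext y
      simp only [mem_preimage, mem_setOf_eq, hct]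
      omega
    rw [h2] at h1
    have h3 := hadd {y | c y % 2 = 0} {y | c y % 2 = 1} (by
      rw [Set.disjoint_left]
      intro y hy hy'
      simp only [mem_setOf_eq] at hy hy'
      omega)
    have h4 : {y | c y % 2 = 0} ∪ {y | c y % 2 = 1} = (univ : Set Y) := by
      ext y
      simp only [mem_union, mem_setOf_eq, mem_univ, iff_true]
      omega
    rw [h4, huniv] at h3
    linarith
  have e3 : m {y | c y % 3 = 0} = 1 / 3 := by
    have h1 := ht {y | c y % 3 = 0}
    have h2 : t ⁻¹' {y | c y % 3 = 0} = {y | c y % 3 = 2} := by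
      ext y
      simp only [mem_preimage, mem_setOf_eq, hct]
      omega
    rw [h2] at h1
    have h1' := ht {y | c y % 3 = 2}
    have h2' : t ⁻¹' {y | c y % 3 = 2} = {y | c y % 3 = 1} := by
      ext y
      simp only [mem_preimage, mem_setOf_eq, hct]
      omega
    rw [h2'] at h1'
    have h3 := hadd {y | c y % 3 = 0} {y | c y % 3 = 1} (by
      rw [Set.disjoint_left]
      intro y hy hy'
      simp only [mem_setOf_eq] at hy hy'
      omega)
    have h4 := hadd ({y | c y % 3 = 0} ∪ {y | c y % 3 = 1}) {y | c y % 3 = 2} (by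
      rw [Set.disjoint_left]
      intro y hy hy'
      simp only [mem_setOf_eq, mem_union] at hy hy'
      omega)
    have h5 : {y | c y % 3 = 0} ∪ {y | c y % 3 = 1} ∪ {y | c y % 3 = 2} = (univ : Set Y) := by
      ext y
      simp only [mem_union, mem_setOf_eq, mem_univ, iff_true]
      omega
    rw [h5, huniv] at h4
    linarith
  have h := hp {y | c y % 2 = 0}
  have h' : p ⁻¹' {y | c y % 2 = 0} = {y | c y % 3 = 0} := by
    ext y
    simp only [mem_preimage, mem_setOf_eq, hcp]
  rw [h', e2, e3] at h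
  norm_num at h

end Pool.Agent.H618R3.BM
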