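import Mathlib

/-!
# Definitions: the mapping class group of the plane minus a closed set, quasimorphisms, amenability

The plane is `ℂ`.  `Surf C` is the surface `ℂ ∖ C`.  `Map C` is the group of orientation preserving
homeomorphisms of `Surf C` modulo the subgroup of homeomorphisms isotopic to the identity.
-/

set_option autoImplicit false
open Set Topology

namespace Pool.Agent.H618R3.BM

noncomputable section

/-- The surface `ℂ ∖ C` (a subspace of the plane `ℂ`). -/
abbrev Surf (C : Set ℂ) : Type := {z : ℂ // z ∉ C}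

/-- Two homeomorphisms are isotopic if they are joined by a continuous path of homeomorphisms. -/
def Isotopic {X : Type} [TopologicalSpace X] (f g : X ≃ₜ X) : Prop :=
  ∃ Φ : C(unitInterval × X, X), (∀ x, Φ (0, x) = f x) ∧ (∀ x, Φ (1, x) = g x) ∧
    ∀ t, ∃ h : X ≃ₜ X, ∀ x, Φ (t, x) = h x

theorem isotopic_one (X : Type) [TopologicalSpace X] : Isotopic (1 : X ≃ₜ X) 1 :=
  ⟨⟨fun z => z.2, continuous_snd⟩, fun _ => rfl, fun _ => rfl, fun _ => ⟨1, fun _ => rfl⟩⟩

theorem isotopic_mul {X : Type} [TopologicalSpace X] {f g : X ≃ₜ X} (hf : Isotopic 1 f)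
    (hg : Isotopic 1 g) : Isotopic 1 (f * g) := by
  obtain ⟨Φ, hΦ0, hΦ1, hΦ⟩ := hf
  obtain ⟨Ψ, hΨ0, hΨ1, hΨ⟩ := hg
  refine ⟨⟨fun z => Φ (z.1, Ψ z), by fun_prop⟩, fun x => ?_, fun x => ?_, fun t => ?_⟩
  · change Φ (0, Ψ (0, x)) = x
    rw [hΨ0, hΦ0]; rfl
  · change Φ (1, Ψ (1, x)) = f (g x)
    rw [hΨ1, hΦ1]
  · obtain ⟨h, hh⟩ := hΦ t
    obtain ⟨k, hk⟩ := hΨ t
    refine ⟨h * k, fun x => ?_⟩
    change Φ (t, Ψ (t, x)) = h (k x)
    rw [hk, hh]

theorem isotopic_inv {X : Type} [TopologicalSpace X] {f : X ≃ₜ X} (hf : Isotopic 1 f) :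
    Isotopic 1 f⁻¹ := by
  obtain ⟨Φ, hΦ0, hΦ1, hΦ⟩ := hf
  refine ⟨⟨fun z => f.symm (Φ (unitInterval.symm z.1, z.2)), by fun_prop⟩, fun x => ?_,
    fun x => ?_, fun t => ?_⟩
  · change f.symm (Φ (unitInterval.symm 0, x)) = x
    rw [unitInterval.symm_zero, hΦ1]
    exact f.symm_apply_apply x
  · change f.symm (Φ (unitInterval.symm 1, x)) = f.symm x
    rw [unitInterval.symm_one, hΦ0]; rfl
  · obtain ⟨h, hh⟩ := hΦ (unitInterval.symm t)
    refine ⟨f.symm * h, fun x => ?_⟩
    change f.symm (Φ (unitInterval.symm t, x)) = f.symm (h x)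
    rw [hh]

/-- `Homeo₀(X)`: the homeomorphisms of `X` that are isotopic to the identity. -/
def Homeo0 (X : Type) [TopologicalSpace X] : Subgroup (X ≃ₜ X) where
  carrier := {f | Isotopic 1 f}
  one_mem' := isotopic_one X
  mul_mem' := isotopic_mul
  inv_mem' := isotopic_inv

/-- `Homeo₀(X)` is a normal subgroup of the group of homeomorphisms. -/
instance homeo0_normal (X : Type) [TopologicalSpace X] : (Homeo0 X).Normal := by
  refine ⟨?_⟩
  rintro f ⟨Φ, hΦ0, hΦ1, hΦ⟩ g
  refine ⟨⟨fun z => g (Φ (z.1, g.symm z.2)), by fun_prop⟩, fun x => ?_, fun x => ?_, fun t => ?_⟩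
  · change g (Φ (0, g.symm x)) = x
    rw [hΦ0]
    exact g.apply_symm_apply x
  · change g (Φ (1, g.symm x)) = g (f (g.symm x))
    rw [hΦ1]
  · obtain ⟨h, hh⟩ := hΦ t
    refine ⟨g * h * g.symm, fun x => ?_⟩
    change g (Φ (t, g.symm x)) = g (h (g.symm x))
    rw [hh]

/-- The closed curve `γ : ℝ → ℂ` (of period `1`) winds `k` times around the point `p`: it has a
continuous angle function around `p`, which increases by `2πk` over a period. -/
def Winds (γ : ℝ → ℂ) (p : ℂ) (k : ℤ) : Prop :=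
  ∃ θ : ℝ → ℝ, Continuous θ ∧
    (∀ t, γ t - p = (‖γ t - p‖ : ℂ) * Complex.exp (θ t * Complex.I)) ∧
    ∀ t, θ (t + 1) = θ t + 2 * Real.pi * k

/-- A homeomorphism of `ℂ ∖ C` is orientation preserving if it preserves the winding numbers of
small closed curves: every point `p` has a neighbourhood `U` such that every closed curve `γ` in
`U ∖ {p}` winds as many times around `p` as the closed curve `f ∘ γ` winds around `f p`. -/
def OrientationPreserving {C : Set ℂ} (f : Surf C ≃ₜ Surf C) : Prop :=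
  ∀ p : Surf C, ∃ U ∈ 𝓝 p, ∀ γ : ℝ → Surf C, Continuous γ → (∀ t, γ (t + 1) = γ t) →
    (∀ t, γ t ∈ U ∧ γ t ≠ p) → ∀ k : ℤ,
      (Winds (fun t => (γ t : ℂ)) p k ↔ Winds (fun t => (f (γ t) : ℂ)) (f p) k)

theorem orientationPreserving_one (C : Set ℂ) : OrientationPreserving (1 : Surf C ≃ₜ Surf C) :=
  fun _ => ⟨univ, Filter.univ_mem, fun _ _ _ _ _ => Iff.rfl⟩

theorem orientationPreserving_mul {C : Set ℂ} {f g : Surf C ≃ₜ Surf C}
    (hf : OrientationPreserving f) (hg : OrientationPreserving g) :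
    OrientationPreserving (f * g) := by
  intro p
  obtain ⟨U, hU, h1⟩ := hg p
  obtain ⟨V, hV, h2⟩ := hf (g p)
  refine ⟨U ∩ g ⁻¹' V, Filter.inter_mem hU (g.continuous.continuousAt.preimage_mem_nhds hV),
    fun γ hγ hper hγU k => ?_⟩
  refine (h1 γ hγ hper (fun t => ⟨(hγU t).1.1, (hγU t).2⟩) k).trans ?_
  exact h2 (fun t => g (γ t)) (g.continuous.comp hγ) (fun t => by rw [hper])
    (fun t => ⟨(hγU t).1.2, fun h => (hγU t).2 (g.injective h)⟩) k

theorem orientationPreserving_inv {C : Set ℂ} {f : Surf C ≃ₜ Surf C}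
    (hf : OrientationPreserving f) : OrientationPreserving f⁻¹ := by
  intro q
  obtain ⟨U, hU, h1⟩ := hf (f.symm q)
  refine ⟨f.symm ⁻¹' U, f.symm.continuous.continuousAt.preimage_mem_nhds hU,
    fun γ hγ hper hγU k => ?_⟩
  have h2 := h1 (fun t => f.symm (γ t)) (f.symm.continuous.comp hγ) (fun t => by rw [hper])
    (fun t => ⟨(hγU t).1, fun h => (hγU t).2 (f.symm.injective h)⟩) k
  simp only [Homeomorph.apply_symm_apply] at h2
  exact h2.symm

/-- `Homeo⁺(ℂ ∖ C)`: the group of orientation preserving homeomorphisms. -/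
def HomeoPlus (C : Set ℂ) : Subgroup (Surf C ≃ₜ Surf C) where
  carrier := {f | OrientationPreserving f}
  one_mem' := orientationPreserving_one C
  mul_mem' := orientationPreserving_mul
  inv_mem' := orientationPreserving_inv

/-- `Homeo⁺(ℂ ∖ C)` as a type. -/
def PlusGroup (C : Set ℂ) : Type := HomeoPlus C

/-- The group structure (composition of homeomorphisms). -/
instance plusGroupGroup (C : Set ℂ) : Group (PlusGroup C) := Subgroup.toGroup (HomeoPlus C)

/-- `Homeo₀(ℂ ∖ C)`, as a subgroup of `Homeo⁺(ℂ ∖ C)`. -/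
def Homeo0Plus (C : Set ℂ) : Subgroup (PlusGroup C) := (Homeo0 (Surf C)).subgroupOf (HomeoPlus C)

instance homeo0Plus_normal (C : Set ℂ) : (Homeo0Plus C).Normal :=
  (Subgroup.normal_subgroupOf : ((Homeo0 (Surf C)).subgroupOf (HomeoPlus C)).Normal)

/-- The mapping class group `Map(ℂ ∖ C) = Homeo⁺(ℂ ∖ C) / Homeo₀(ℂ ∖ C)`. -/
def Map (C : Set ℂ) : Type := PlusGroup C ⧸ Homeo0Plus C

/-- The group structure of the mapping class group. -/
instance mapGroup (C : Set ℂ) : Group (Map C) := QuotientGroup.Quotient.group (Homeo0Plus C)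

/-- A homogeneous quasimorphism. -/
def IsHomogeneousQuasimorphism {H : Type} [Group H] (φ : H → ℝ) : Prop :=
  (∃ D : ℝ, ∀ g h : H, |φ (g * h) - φ g - φ h| ≤ D) ∧ ∀ (g : H) (n : ℤ), φ (g ^ n) = n * φ g

theorem quasi_zero (H : Type) [Group H] : IsHomogeneousQuasimorphism (0 : H → ℝ) :=
  ⟨⟨0, fun g h => by simp⟩, fun g n => by simp⟩

theorem quasi_add {H : Type} [Group H] {φ ψ : H → ℝ} (h1 : IsHomogeneousQuasimorphism φ)
    (h2 : IsHomogeneousQuasimorphism ψ) : IsHomogeneousQuasimorphism (φ + ψ) := by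
  obtain ⟨⟨D, hD⟩, hφ⟩ := h1
  obtain ⟨⟨E, hE⟩, hψ⟩ := h2
  refine ⟨⟨D + E, fun g h => ?_⟩, fun g n => ?_⟩
  · have h1 := hD g h
    have h2 := hE g h
    have h3 := abs_add_le (φ (g * h) - φ g - φ h) (ψ (g * h) - ψ g - ψ h)
    simp only [Pi.add_apply]
    calc _ = |(φ (g * h) - φ g - φ h) + (ψ (g * h) - ψ g - ψ h)| := by ring_nf
      _ ≤ _ := h3
      _ ≤ _ := add_le_add h1 h2
  · simp only [Pi.add_apply, hφ, hψ]; ring

theorem quasi_smul {H : Type} [Group H] (c : ℝ) {φ : H → ℝ} (h : IsHomogeneousQuasimorphism φ) :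
    IsHomogeneousQuasimorphism (c • φ) := by
  obtain ⟨⟨D, hD⟩, hφ⟩ := h
  refine ⟨⟨|c| * D, fun g h => ?_⟩, fun g n => ?_⟩
  · simp only [Pi.smul_apply, smul_eq_mul]
    calc _ = |c * (φ (g * h) - φ g - φ h)| := by ring_nf
      _ = |c| * |φ (g * h) - φ g - φ h| := abs_mul _ _
      _ ≤ _ := mul_le_mul_of_nonneg_left (hD g h) (abs_nonneg c)
  · simp only [Pi.smul_apply, smul_eq_mul, hφ]; ring

/-- `Q(H)`: the real vector space of homogeneous quasimorphisms on `H`. -/
def Q (H : Type) [Group H] : Submodule ℝ (H → ℝ) where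
  carrier := {φ | IsHomogeneousQuasimorphism φ}
  zero_mem' := quasi_zero H
  add_mem' := quasi_add
  smul_mem' := quasi_smul

/-- `φ` is additive -/
def IsAdditive {H : Type} [Group H] (φ : H → ℝ) : Prop := ∀ g h : H, φ (g * h) = φ g + φ h

theorem additive_zero (H : Type) [Group H] : IsAdditive ((0 : Q H) : H → ℝ) := fun g h => by simp

theorem additive_add {H : Type} [Group H] {φ ψ : Q H} (h1 : IsAdditive (φ : H → ℝ))
    (h2 : IsAdditive (ψ : H → ℝ)) : IsAdditive ((φ + ψ : Q H) : H → ℝ) := by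
  intro g h
  simp only [Submodule.coe_add, Pi.add_apply]
  rw [h1, h2]; ring

theorem additive_smul {H : Type} [Group H] (c : ℝ) {φ : Q H} (h1 : IsAdditive (φ : H → ℝ)) :
    IsAdditive ((c • φ : Q H) : H → ℝ) := by
  intro g h
  simp only [Submodule.coe_smul, Pi.smul_apply, smul_eq_mul]
  rw [h1]; ring

/-- `Hom(H, ℝ)`, as a subspace of `Q(H)`. -/
def HomQ (H : Type) [Group H] : Submodule ℝ (Q H) where
  carrier := {φ | IsAdditive (φ : H → ℝ)}
  zero_mem' := additive_zero H
  add_mem' := additive_add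
  smul_mem' := additive_smul

/-- `Q̃(H) = Q(H) / Hom(H, ℝ)`. -/
def QTilde (H : Type) [Group H] : Type := Q H ⧸ HomQ H

/-- The additive group structure of the quotient space. -/
instance qTildeAddCommGroup (H : Type) [Group H] : AddCommGroup (QTilde H) :=
  Submodule.Quotient.addCommGroup (HomQ H)

/-- The vector space structure of the quotient space. -/
instance qTildeModule (H : Type) [Group H] : Module ℝ (QTilde H) :=
  Submodule.Quotient.module (HomQ H)

/-- Amenability of a discrete group: there is a finitely additive probability measure on the set of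
all subsets of `G` that is invariant under left translation. -/
def IsAmenable (G : Type) [Group G] : Prop :=
  ∃ μ : Set G → ℝ, (∀ A, 0 ≤ μ A) ∧ μ univ = 1 ∧
    (∀ A B, Disjoint A B → μ (A ∪ B) = μ A + μ B) ∧
    ∀ (g : G) (A : Set G), μ ((fun x => g * x) '' A) = μ A

/-- The standard middle-thirds Cantor set, on the real axis of the plane `ℂ`. -/
def planeCantor : Set ℂ := (fun x : ℝ => (x : ℂ)) '' cantorSet

end

end Pool.Agent.H618R3.BM
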