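import Pool.Agent.H618R3.BM.Line

/-!
# The group of block-preserving homeomorphisms
-/

set_option autoImplicit false
open Set Topology Filter

namespace Pool.Agent.H618R3.BM

/-- the set of interior points of the blocks -/
def J : Set ℝ := {x | 2 / 3 < th (Int.fract x) ∧ th (Int.fract x) < 7 / 9}

theorem J_add_int (x : ℝ) (n : ℤ) : x + n ∈ J ↔ x ∈ J := by
  change (2 / 3 < th (Int.fract (x + n)) ∧ th (Int.fract (x + n)) < 7 / 9) ↔ _
  rw [Int.fract_add_intCast]
  rfl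

/-- the group -/
def H0 : Subgroup (ℝ ≃o ℝ) where
  carrier := {F | (∃ k : ℤ, ∀ n : ℤ, F n = n + k) ∧ (∀ x, F x ∈ Ct ↔ x ∈ Ct) ∧
    ∀ x, F x ∈ J ↔ x ∈ J}
  one_mem' := ⟨⟨0, fun n => by simp⟩, fun _ => Iff.rfl, fun _ => Iff.rfl⟩
  mul_mem' := by
    rintro F G ⟨⟨k, hk⟩, h1, h2⟩ ⟨⟨l, hl⟩, h3, h4⟩
    refine ⟨⟨l + k, fun n => ?_⟩, fun x => (h1 (G x)).trans (h3 x), fun x => (h2 (G x)).trans (h4 x)⟩
    rw [RelIso.mul_apply, hl]
    have := hk (n + l)
    push_cast at this ⊢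
    rw [this]
    ring
  inv_mem' := by
    rintro F ⟨⟨k, hk⟩, h1, h2⟩
    refine ⟨⟨-k, fun n => ?_⟩, fun x => ?_, fun x => ?_⟩
    · have h3 := hk (n - k)
      push_cast at h3
      rw [sub_add_cancel] at h3
      have h4 : F⁻¹ (F ((n : ℝ) - k)) = (n : ℝ) - k := RelIso.inv_apply_self F _
      rw [h3] at h4
      rw [h4]
      push_cast
      ring
    · have := h1 (F⁻¹ x)
      rw [RelIso.apply_inv_self] at this
      exact this.symm
    · have := h2 (F⁻¹ x)
      rw [RelIso.apply_inv_self] at this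
      exact this.symm

/-- the translation by one -/
noncomputable def sg : ℝ ≃o ℝ := OrderIso.addRight 1

theorem sg_apply (x : ℝ) : sg x = x + 1 := rfl

theorem sg_mem : sg ∈ H0 := by
  refine ⟨⟨1, fun n => by rw [sg_apply]; push_cast; rfl⟩, fun x => Ct_add_one x, fun x => ?_⟩
  have := J_add_int x 1
  rwa [Int.cast_one] at this

/-- the translation number -/
noncomputable def kap : H0 →* Multiplicative ℤ where
  toFun F := Multiplicative.ofAdd ⌊F.1 0⌋
  map_one' := by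
    change Multiplicative.ofAdd ⌊(0 : ℝ)⌋ = 1
    rw [Int.floor_zero]; rfl
  map_mul' F G := by
    obtain ⟨⟨k, hk⟩, -, -⟩ := F.2
    obtain ⟨⟨l, hl⟩, -, -⟩ := G.2
    have e1 : F.1 0 = k := by have := hk 0; simpa using this
    have e2 : G.1 0 = l := by have := hl 0; simpa using this
    have e3 : (F * G).1 0 = ((l + k : ℤ) : ℝ) := by
      change F.1 (G.1 0) = _
      rw [e2, hk]; push_cast; ring
    rw [e1, e2, e3, Int.floor_intCast, Int.floor_intCast, Int.floor_intCast, ← ofAdd_add, add_comm]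

theorem kap_sg : kap ⟨sg, sg_mem⟩ = Multiplicative.ofAdd 1 := by
  change Multiplicative.ofAdd ⌊sg 0⌋ = _
  rw [sg_apply]; simp

theorem level_zpow {A : ℝ ≃o ℝ} (hA : ∀ n : ℤ, A n = n + 1) (n m : ℤ) : (A ^ n) m = m + n := by
  induction n using Int.induction_on with
  | zero => simp
  | succ n ih =>
    rw [add_comm (n : ℤ) 1, zpow_add, zpow_one, RelIso.mul_apply, ih]
    have := hA (m + n)
    push_cast at this ⊢
    rw [this]; ring
  | pred n ih =>
    have e1 : (A ^ (-(n : ℤ) - 1)) m = A⁻¹ ((A ^ (-(n : ℤ))) m) := by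
      rw [← RelIso.mul_apply, ← zpow_neg_one, ← zpow_add]
      congr 2
      ring
    rw [e1, ih]
    have h3 := hA (m + (-(n : ℤ) - 1))
    have h4 : (m : ℝ) + ((-(n : ℤ) : ℤ) : ℝ) = A ((m + (-(n : ℤ) - 1) : ℤ) : ℝ) := by
      rw [h3]; push_cast; ring
    rw [h4, RelIso.inv_apply_self]
    push_cast
    ring

/-- elements of the kernel are commutators -/
theorem comm_of_kap (F : H0) (hF : kap F = 1) : ∃ a b : H0, F = a * b * a⁻¹ * b⁻¹ := by
  obtain ⟨⟨k, hk⟩, hC, hJ⟩ := F.2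
  have e1 : F.1 0 = k := by have := hk 0; simpa using this
  have hk0 : k = 0 := by
    have h1 : Multiplicative.ofAdd ⌊F.1 0⌋ = 1 := hF
    rw [e1, Int.floor_intCast] at h1
    exact h1
  set A : ℝ ≃o ℝ := F.1 * sg with hA
  have hAm : A ∈ H0 := H0.mul_mem F.2 sg_mem
  have hAn : ∀ n : ℤ, A n = n + 1 := by
    intro n
    rw [hA, RelIso.mul_apply, sg_apply]
    have := hk (n + 1)
    push_cast at this
    rw [this, hk0]; simp
  have hAz : ∀ n m : ℤ, (A ^ n) m = m + n := level_zpow hAn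
  have hA0 : ∀ n : ℤ, (A ^ n) 0 = n := fun n => by have := hAz n 0; simpa using this
  have hA1 : ∀ n : ℤ, (A ^ n) 1 = 1 + n := fun n => by have := hAz n 1; simpa using this
  obtain ⟨K, hK⟩ := glue 1 1 one_pos one_pos (fun n r => (A ^ n) r - n)
    (fun n r hr => by
      have h1 := (A ^ n).monotone hr.1
      have h2 := (A ^ n).strictMono hr.2
      rw [hA0] at h1
      rw [hA1] at h2
      constructor <;> linarith)
    (fun n x _ y _ hxy => by
      have := (A ^ n).strictMono hxy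
      change (A ^ n) x - n < (A ^ n) y - n
      linarith)
    (fun n y hy => by
      refine ⟨(A ^ n)⁻¹ (y + n), ⟨?_, ?_⟩, ?_⟩
      · have h5 : (A ^ n)⁻¹ (n : ℝ) ≤ (A ^ n)⁻¹ (y + n) := (A ^ n)⁻¹.monotone (by linarith [hy.1])
        have h6 : (A ^ n)⁻¹ ((A ^ n) 0) = 0 := RelIso.inv_apply_self _ _
        rw [hA0] at h6
        rwa [h6] at h5
      · have h5 : (A ^ n)⁻¹ (y + n) < (A ^ n)⁻¹ (1 + n : ℝ) := (A ^ n)⁻¹.strictMono (by linarith [hy.2])
        have h6 : (A ^ n)⁻¹ ((A ^ n) 1) = 1 := RelIso.inv_apply_self _ _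
        rw [hA1] at h6
        rwa [h6] at h5
      · change (A ^ n) ((A ^ n)⁻¹ (y + n)) - n = y
        rw [RelIso.apply_inv_self]; ring)
  have hK' : ∀ (n : ℤ) (r : ℝ), r ∈ Ico (0 : ℝ) 1 → K (n + r) = (A ^ n) r := by
    intro n r hr
    have := hK n r hr
    rw [one_mul] at this
    rw [this]; ring
  have hdec : ∀ x : ℝ, ∃ (n : ℤ) (r : ℝ), r ∈ Ico (0 : ℝ) 1 ∧ x = n + r := fun x =>
    ⟨⌊x⌋, Int.fract x, ⟨Int.fract_nonneg x, Int.fract_lt_one x⟩, (Int.floor_add_fract x).symm⟩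
  have hKm : K ∈ H0 := by
    refine ⟨⟨0, fun n => ?_⟩, fun x => ?_, fun x => ?_⟩
    · have := hK' n 0 (by simp)
      rw [add_zero] at this
      rw [this, hA0]; simp
    · obtain ⟨n, r, hr, rfl⟩ := hdec x
      rw [hK' n r hr, add_comm, Ct_add_int]
      exact (H0.zpow_mem hAm n).2.1 r
    · obtain ⟨n, r, hr, rfl⟩ := hdec x
      rw [hK' n r hr, add_comm, J_add_int]
      exact (H0.zpow_mem hAm n).2.2 r
  refine ⟨⟨K, hKm⟩, ⟨sg, sg_mem⟩, ?_⟩
  have hmain : F.1 * sg * K = K * sg := by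
    ext x
    obtain ⟨n, r, hr, rfl⟩ := hdec x
    have h1 : sg ((n : ℝ) + r) = ((n + 1 : ℤ) : ℝ) + r := by rw [sg_apply]; push_cast; ring
    change (F.1 * sg) (K (n + r)) = K (sg (n + r))
    rw [hK' n r hr, h1, hK' (n + 1) r hr, add_comm n 1, zpow_add, zpow_one]
    rfl
  apply Subtype.ext
  change F.1 = K * sg * K⁻¹ * sg⁻¹
  rw [← hmain]
  group

/-- restriction to the interval, in the coordinate `th` -/
theorem exists_res (G : ℝ ≃o ℝ) (h0 : G 0 = 0) (h1 : G 1 = 1) :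
    ∃ G' : ℝ ≃o ℝ, ∀ x, th (G' x) = G (th x) := by
  have hin : ∀ x, G (th x) ∈ Ioo (0 : ℝ) 1 := by
    intro x
    have e1 := G.strictMono (th_mem x).1
    have e2 := G.strictMono (th_mem x).2
    rw [h0] at e1
    rw [h1] at e2
    exact ⟨e1, e2⟩
  choose g hg using fun x => th_surj (hin x).1 (hin x).2
  have hmono : StrictMono g := by
    intro x y hxy
    rw [← th_mono.lt_iff_lt, hg, hg]
    exact G.strictMono (th_mono hxy)
  have hsurj : Function.Surjective g := by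
    intro y
    have e1 : (0 : ℝ) < G⁻¹ (th y) := by
      have := G⁻¹.strictMono (th_mem y).1
      rw [← h0] at this
      rwa [RelIso.inv_apply_self] at this
    have e2 : G⁻¹ (th y) < 1 := by
      have := G⁻¹.strictMono (th_mem y).2
      rw [← h1] at this
      rwa [RelIso.inv_apply_self] at this
    obtain ⟨x, hx⟩ := th_surj e1 e2
    refine ⟨x, th_mono.injective ?_⟩
    rw [hg, hx, RelIso.apply_inv_self]
  exact ⟨hmono.orderIsoOfSurjective g hsurj, hg⟩

/-- the map `y ↦ 9 y + c` -/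
noncomputable def aff (c : ℝ) : ℝ ≃o ℝ :=
  StrictMono.orderIsoOfSurjective (fun y => 9 * y + c) (fun x y h => by simp only; linarith)
    fun y => ⟨(y - c) / 9, by ring⟩

theorem aff_apply (c x : ℝ) : aff c x = 9 * x + c := rfl

theorem aff_inv_apply (c x : ℝ) : (aff c)⁻¹ x = (x - c) / 9 := by
  apply (aff c).injective
  rw [RelIso.apply_inv_self, aff_apply]; ring

theorem mem_mid {y : ℝ} (h1 : 2 / 3 < y) (h2 : y < 7 / 9) :
    y ∈ cantorSet ↔ 9 * y + (-6) ∈ cantorSet := by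
  rw [mem_hi (by linarith), mem_lo (by linarith)]
  have : 3 * (3 * y - 2) = 9 * y + (-6) := by ring
  rw [this]

theorem mem_top {y : ℝ} (h1 : 8 / 9 < y) :
    y ∈ cantorSet ↔ 9 * y + (-8) ∈ cantorSet := by
  rw [mem_hi (by linarith), mem_hi (by linarith)]
  have : 3 * (3 * y - 2) - 2 = 9 * y + (-8) := by ring
  rw [this]

/-- block maps -/
theorem exists_blk (F : ℝ ≃o ℝ) (hF : ∀ x, F x ∈ Ct ↔ x ∈ Ct) :
    ∃ B ∈ H0, ∀ x ∈ J, ∀ v, th v = 9 * th (Int.fract x) + (-6) →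
      th (F v) = 9 * th (Int.fract (B x)) + (-6) := by
  set G : ℝ ≃o ℝ := (aff (-6))⁻¹ * ext F * aff (-6) with hG
  have hGa : ∀ y, 9 * G y + (-6) = extF F (9 * y + (-6)) := by
    intro y
    rw [hG, RelIso.mul_apply, RelIso.mul_apply, aff_inv_apply, aff_apply, ext_apply]
    ring
  have hout : ∀ y, (y ≤ 2 / 3 ∨ 7 / 9 ≤ y) → G y = y := by
    intro y hy
    have h1 := hGa y
    rw [extF_out] at h1
    · linarith
    · intro h
      rcases hy with h2 | h2
      · linarith [h.1]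
      · linarith [h.2]
  have hin : ∀ y, (2 / 3 < G y ∧ G y < 7 / 9) ↔ (2 / 3 < y ∧ y < 7 / 9) := by
    intro y
    have e1 : G (2 / 3) = 2 / 3 := hout _ (Or.inl le_rfl)
    have e2 : G (7 / 9) = 7 / 9 := hout _ (Or.inr le_rfl)
    have h1 : 2 / 3 < G y ↔ 2 / 3 < y := by
      conv_lhs => rw [← e1]
      exact G.lt_iff_lt
    have h2 : G y < 7 / 9 ↔ y < 7 / 9 := by
      conv_lhs => rw [← e2]
      exact G.lt_iff_lt
    rw [h1, h2]
  have hGC : ∀ y, G y ∈ cantorSet ↔ y ∈ cantorSet := by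
    intro y
    by_cases hy : 2 / 3 < y ∧ y < 7 / 9
    · have hy' := (hin y).mpr hy
      rw [mem_mid hy'.1 hy'.2, mem_mid hy.1 hy.2, hGa]
      exact ext_mem_LineC F hF _
    · rw [hout y]
      by_contra hcon
      push Not at hcon
      exact hy hcon
  obtain ⟨G', hG'⟩ := exists_res G (hout _ (Or.inl (by norm_num))) (hout _ (Or.inr (by norm_num)))
  have t0 : th 0 = 1 / 2 := by have := th_int 0; simpa [orb_zero] using this
  have t1 : th 1 = 5 / 6 := by have := th_int 1; simpa [orb_one] using this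
  have g0 : G' 0 = 0 := th_mono.injective (by rw [hG', t0, hout _ (Or.inl (by norm_num))])
  have g1 : G' 1 = 1 := th_mono.injective (by rw [hG', t1, hout _ (Or.inr (by norm_num))])
  have hIco : ∀ r, r ∈ Ico (0 : ℝ) 1 → G' r ∈ Ico (0 : ℝ) 1 := by
    intro r hr
    have h1 := G'.monotone hr.1
    have h2 := G'.strictMono hr.2
    rw [g0] at h1
    rw [g1] at h2
    exact ⟨h1, h2⟩
  obtain ⟨B, hB⟩ := glue 1 1 one_pos one_pos (fun _ r => G' r) (fun _ r hr => hIco r hr)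
    (fun _ x _ y _ hxy => G'.strictMono hxy)
    (fun _ y hy => by
      refine ⟨G'⁻¹ y, ⟨?_, ?_⟩, RelIso.apply_inv_self _ _⟩
      · have := G'⁻¹.monotone hy.1
        conv at this => lhs; rw [← g0]
        rwa [RelIso.inv_apply_self] at this
      · have := G'⁻¹.strictMono hy.2
        conv at this => rhs; rw [← g1]
        rwa [RelIso.inv_apply_self] at this)
  have hB' : ∀ (n : ℤ) (r : ℝ), r ∈ Ico (0 : ℝ) 1 → B (n + r) = n + G' r := by
    intro n r hr
    have := hB n r hr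
    rwa [one_mul] at this
  have hfr : ∀ (n : ℤ) (r : ℝ), r ∈ Ico (0 : ℝ) 1 → Int.fract ((n : ℝ) + r) = r := by
    intro n r hr
    rw [Int.fract_intCast_add, Int.fract_eq_self.mpr hr]
  have hdec : ∀ x : ℝ, ∃ (n : ℤ) (r : ℝ), r ∈ Ico (0 : ℝ) 1 ∧ x = n + r := fun x =>
    ⟨⌊x⌋, Int.fract x, ⟨Int.fract_nonneg x, Int.fract_lt_one x⟩, (Int.floor_add_fract x).symm⟩
  refine ⟨B, ⟨⟨0, fun n => ?_⟩, fun x => ?_, fun x => ?_⟩, fun x hx v hv => ?_⟩
  · have := hB' n 0 (by simp)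
    rw [add_zero] at this
    rw [this, g0]; simp
  · obtain ⟨n, r, hr, rfl⟩ := hdec x
    rw [hB' n r hr, add_comm, Ct_add_int, add_comm (n : ℝ) r, Ct_add_int]
    change th (G' r) ∈ cantorSet ↔ th r ∈ cantorSet
    rw [hG']
    exact hGC _
  · obtain ⟨n, r, hr, rfl⟩ := hdec x
    rw [hB' n r hr]
    change (2 / 3 < th (Int.fract ((n : ℝ) + G' r)) ∧ th (Int.fract ((n : ℝ) + G' r)) < 7 / 9) ↔
      (2 / 3 < th (Int.fract ((n : ℝ) + r)) ∧ th (Int.fract ((n : ℝ) + r)) < 7 / 9)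
    rw [hfr n r hr, hfr n _ (hIco r hr), hG']
    exact hin _
  · obtain ⟨n, r, hr, rfl⟩ := hdec x
    rw [hfr n r hr] at hv
    rw [hB' n r hr, hfr n _ (hIco r hr), hG', hGa, ← hv, extF_th]

/-- the homeomorphism that turns blocks `3n, 3n+1, 3n+2` into blocks `2n, 2n+1` -/
theorem exists_psi : ∃ P : ℝ ≃o ℝ, (∀ x, P x ∈ Ct ↔ x ∈ Ct) ∧
    ∀ v, ⌊P v⌋ % 2 = 0 ↔ ⌊v⌋ % 3 = 0 := by
  set m : ℝ ≃o ℝ := (aff (-8))⁻¹ * S⁻¹ * aff (-8) with hm
  have hSinv : ∀ y, y ≤ 0 → S⁻¹ y = y := fun y hy => by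
    apply S.injective
    rw [RelIso.apply_inv_self, S_apply, sf_of_nonpos hy]
  have hma : ∀ y, 9 * m y + (-8) = S⁻¹ (9 * y + (-8)) := by
    intro y
    rw [hm, RelIso.mul_apply, RelIso.mul_apply, aff_inv_apply, aff_apply]
    ring
  have hlow : ∀ y, y ≤ 8 / 9 → m y = y := by
    intro y hy
    have h1 := hma y
    rw [hSinv _ (by linarith)] at h1
    linarith
  have hm1 : m 1 = 1 := by
    have h1 := hma 1
    have h2 : S⁻¹ (1 : ℝ) = 1 := by
      apply S.injective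
      rw [RelIso.apply_inv_self, S_apply, sf_of_one_le le_rfl]
    have h3 : (9 : ℝ) * 1 + (-8) = 1 := by norm_num
    rw [h3, h2] at h1
    linarith
  have hmC : ∀ y, m y ∈ cantorSet ↔ y ∈ cantorSet := by
    intro y
    rcases le_or_gt y (8 / 9) with hy | hy
    · rw [hlow y hy]
    · have hy' : 8 / 9 < m y := by
        have := m.strictMono hy
        rwa [hlow _ le_rfl] at this
      rw [mem_top hy', mem_top hy, hma]
      exact (LineC.inv_mem S_mem_LineC) _
  obtain ⟨M, hM⟩ := exists_res m (hlow 0 (by norm_num)) hm1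
  have t1 : th 1 = 5 / 6 := by have := th_int 1; simpa [orb_one] using this
  have t2 : th 2 = 17 / 18 := by
    have h1 := th_int 2
    have h2 := orb_natCast 2
    push_cast at h1 h2
    rw [h1, h2]; norm_num
  have t3 : th 3 = 53 / 54 := by
    have h1 := th_int 3
    have h2 := orb_natCast 3
    push_cast at h1 h2
    rw [h1, h2]; norm_num
  have hMid : ∀ x, x ≤ 1 → M x = x := by
    intro x hx
    apply th_mono.injective
    rw [hM]
    apply hlow
    have := th_mono.monotone hx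
    rw [t1] at this
    linarith
  have hM3 : M 3 = 2 := by
    apply th_mono.injective
    rw [hM, t3, t2]
    have h1 := hma (53 / 54)
    have h2 : S⁻¹ (5 / 6 : ℝ) = 1 / 2 := by
      apply S.injective
      rw [RelIso.apply_inv_self, S_apply, sf_3 (by norm_num) (by norm_num)]; norm_num
    have h3 : (9 : ℝ) * (53 / 54) + (-8) = 5 / 6 := by norm_num
    rw [h3, h2] at h1
    linarith
  have hM0 : M 0 = 0 := hMid 0 (by norm_num)
  have hM1 : M 1 = 1 := hMid 1 le_rfl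
  have hMC : ∀ x, M x ∈ Ct ↔ x ∈ Ct := by
    intro x
    change th (M x) ∈ cantorSet ↔ th x ∈ cantorSet
    rw [hM]
    exact hmC _
  have hIco : ∀ r, r ∈ Ico (0 : ℝ) 3 → M r ∈ Ico (0 : ℝ) 2 := by
    intro r hr
    have h1 := M.monotone hr.1
    have h2 := M.strictMono hr.2
    rw [hM0] at h1
    rw [hM3] at h2
    exact ⟨h1, h2⟩
  obtain ⟨P, hP⟩ := glue 3 2 (by norm_num) (by norm_num) (fun _ r => M r) (fun _ r hr => hIco r hr)
    (fun _ x _ y _ hxy => M.strictMono hxy)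
    (fun _ y hy => by
      refine ⟨M⁻¹ y, ⟨?_, ?_⟩, RelIso.apply_inv_self _ _⟩
      · have := M⁻¹.monotone hy.1
        conv at this => lhs; rw [← hM0]
        rwa [RelIso.inv_apply_self] at this
      · have := M⁻¹.strictMono hy.2
        conv at this => rhs; rw [← hM3]
        rwa [RelIso.inv_apply_self] at this)
  have hdec : ∀ x : ℝ, ∃ (n : ℤ) (r : ℝ), r ∈ Ico (0 : ℝ) 3 ∧ x = 3 * n + r := by
    intro x
    refine ⟨⌊x / 3⌋, x - 3 * ⌊x / 3⌋, ⟨?_, ?_⟩, by ring⟩
    · have := Int.floor_le (x / 3)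
      linarith
    · have := Int.lt_floor_add_one (x / 3)
      linarith
  refine ⟨P, fun x => ?_, fun v => ?_⟩
  · obtain ⟨n, r, hr, rfl⟩ := hdec x
    rw [hP n r hr]
    have h1 : (2 : ℝ) * n + M r = M r + ((2 * n : ℤ) : ℝ) := by push_cast; ring
    have h2 : (3 : ℝ) * n + r = r + ((3 * n : ℤ) : ℝ) := by push_cast; ring
    rw [h1, h2, Ct_add_int, Ct_add_int]
    exact hMC r
  · obtain ⟨n, r, hr, rfl⟩ := hdec v
    rw [hP n r hr]
    have h1 : (2 : ℝ) * n + M r = ((2 * n : ℤ) : ℝ) + M r := by push_cast; ring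
    have h2 : (3 : ℝ) * n + r = ((3 * n : ℤ) : ℝ) + r := by push_cast; ring
    rw [h1, h2, Int.floor_intCast_add, Int.floor_intCast_add]
    rcases lt_or_ge r 1 with h3 | h3
    · rw [hMid r h3.le]
      have h4 : ⌊r⌋ = 0 := by rw [Int.floor_eq_zero_iff]; exact ⟨hr.1, h3⟩
      rw [h4]
      omega
    · have h4 : ⌊M r⌋ = 1 := by
        rw [Int.floor_eq_iff]
        have e1 := M.monotone h3
        rw [hM1] at e1
        have e2 := (hIco r hr).2
        push_cast
        constructor <;> linarith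
      have h5 : 1 ≤ ⌊r⌋ := by rw [Int.le_floor]; exact_mod_cast h3
      have h6 : ⌊r⌋ < 3 := by rw [Int.floor_lt]; exact_mod_cast hr.2
      rw [h4]
      omega

end Pool.Agent.H618R3.BM
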