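import Pool.Agent.H618R3.BM.Plane

/-!
# Increasing homeomorphisms of the line: gluing, the shift of the Cantor set
-/

set_option autoImplicit false
open Set Topology Filter

namespace Pool.Agent.H618R3.BM

/-- gluing -/
theorem glue (a b : ℝ) (ha : 0 < a) (hb : 0 < b) (q : ℤ → ℝ → ℝ)
    (h1 : ∀ n r, r ∈ Ico 0 a → q n r ∈ Ico 0 b) (h2 : ∀ n, StrictMonoOn (q n) (Ico 0 a))
    (h3 : ∀ n, ∀ y ∈ Ico 0 b, ∃ r ∈ Ico 0 a, q n r = y) :
    ∃ G : ℝ ≃o ℝ, ∀ (n : ℤ) (r : ℝ), r ∈ Ico 0 a → G (a * n + r) = b * n + q n r := by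
  let g : ℝ → ℝ := fun x => b * ⌊x / a⌋ + q ⌊x / a⌋ (x - a * ⌊x / a⌋)
  have hr : ∀ x : ℝ, x - a * ⌊x / a⌋ ∈ Ico 0 a := by
    intro x
    have e1 := Int.floor_le (x / a)
    have e2 := Int.lt_floor_add_one (x / a)
    rw [le_div_iff₀ ha] at e1
    rw [div_lt_iff₀ ha] at e2
    constructor <;> nlinarith
  have hg : ∀ (n : ℤ) (r : ℝ), r ∈ Ico 0 a → g (a * n + r) = b * n + q n r := by
    intro n r hr
    have e1 : ⌊(a * n + r) / a⌋ = n := by
      rw [Int.floor_eq_iff, le_div_iff₀ ha, div_lt_iff₀ ha]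
      constructor <;> nlinarith [hr.1, hr.2]
    change b * ⌊(a * n + r) / a⌋ + q ⌊(a * n + r) / a⌋ (a * n + r - a * ⌊(a * n + r) / a⌋) = _
    rw [e1]
    congr 2
    ring
  have hmono : StrictMono g := by
    intro x y hxy
    have hfl : ⌊x / a⌋ ≤ ⌊y / a⌋ := Int.floor_le_floor (by gcongr)
    rcases hfl.eq_or_lt with he | hlt
    · change b * ⌊x / a⌋ + q ⌊x / a⌋ (x - a * ⌊x / a⌋) < b * ⌊y / a⌋ + q ⌊y / a⌋ (y - a * ⌊y / a⌋)
      have e1 := hr x
      have e2 := hr y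
      rw [← he] at e2 ⊢
      have := h2 ⌊x / a⌋ e1 e2 (by linarith)
      linarith
    · change b * ⌊x / a⌋ + q ⌊x / a⌋ (x - a * ⌊x / a⌋) < b * ⌊y / a⌋ + q ⌊y / a⌋ (y - a * ⌊y / a⌋)
      have e1 := (h1 ⌊x / a⌋ _ (hr x)).2
      have e2 := (h1 ⌊y / a⌋ _ (hr y)).1
      have e3 : (⌊x / a⌋ : ℝ) + 1 ≤ ⌊y / a⌋ := by exact_mod_cast hlt
      nlinarith
  have hsurj : Function.Surjective g := by
    intro y
    have e1 := Int.floor_le (y / b)
    have e2 := Int.lt_floor_add_one (y / b)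
    rw [le_div_iff₀ hb] at e1
    rw [div_lt_iff₀ hb] at e2
    obtain ⟨r, hr, hqr⟩ := h3 ⌊y / b⌋ (y - b * ⌊y / b⌋) ⟨by linarith, by linarith⟩
    refine ⟨a * ⌊y / b⌋ + r, ?_⟩
    rw [hg _ _ hr, hqr]
    ring
  exact ⟨hmono.orderIsoOfSurjective g hsurj, hg⟩

theorem mem_cantor_iff (x : ℝ) : x ∈ cantorSet ↔ 3 * x ∈ cantorSet ∨ 3 * x - 2 ∈ cantorSet := by
  constructor
  · intro hx
    rw [cantorSet_eq_union_halves] at hx
    rcases hx with ⟨y, hy, rfl⟩ | ⟨y, hy, rfl⟩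
    · left
      have : 3 * (y / 3) = y := by ring
      simpa [this] using hy
    · right
      have : 3 * ((2 + y) / 3) - 2 = y := by ring
      simpa [this] using hy
  · rintro (h | h)
    · rw [cantorSet_eq_union_halves]
      left
      exact ⟨3 * x, h, by ring⟩
    · rw [cantorSet_eq_union_halves]
      right
      exact ⟨3 * x - 2, h, by ring⟩

theorem mem_lo {x : ℝ} (h : x < 2 / 3) : x ∈ cantorSet ↔ 3 * x ∈ cantorSet := by
  rw [mem_cantor_iff]
  constructor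
  · rintro (h1 | h1)
    · exact h1
    · have := (cantorSet_subset_unitInterval h1).1
      linarith
  · exact Or.inl

theorem mem_hi {x : ℝ} (h : 1 / 3 < x) : x ∈ cantorSet ↔ 3 * x - 2 ∈ cantorSet := by
  rw [mem_cantor_iff]
  constructor
  · rintro (h1 | h1)
    · have := (cantorSet_subset_unitInterval h1).2
      linarith
    · exact h1
  · exact Or.inr

/-- the shift of the Cantor set -/
noncomputable def sf (x : ℝ) : ℝ := max x (min (3 * x) (min (x + 4 / 9) ((x + 2) / 3)))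

theorem sf_mono : StrictMono sf := by
  intro x y h
  exact max_lt_max h (min_lt_min (by linarith) (min_lt_min (by linarith) (by linarith)))

theorem sf_of_nonpos {x : ℝ} (h : x ≤ 0) : sf x = x := by
  unfold sf
  apply max_eq_left
  exact (min_le_left _ _).trans (by linarith)

theorem sf_of_one_le {x : ℝ} (h : 1 ≤ x) : sf x = x := by
  unfold sf
  apply max_eq_left
  exact (min_le_right _ _).trans ((min_le_right _ _).trans (by linarith))

theorem sf_1 {x : ℝ} (h0 : 0 ≤ x) (h : x ≤ 2 / 9) : sf x = 3 * x := by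
  unfold sf
  rw [min_eq_left (show 3 * x ≤ min (x + 4 / 9) ((x + 2) / 3) from le_min (by linarith) (by linarith)),
    max_eq_right (by linarith)]

theorem sf_2 {x : ℝ} (h0 : 2 / 9 ≤ x) (h : x ≤ 1 / 3) : sf x = x + 4 / 9 := by
  unfold sf
  rw [min_eq_left (show x + 4 / 9 ≤ (x + 2) / 3 by linarith), min_eq_right (by linarith),
    max_eq_right (by linarith)]

theorem sf_3 {x : ℝ} (h0 : 1 / 3 ≤ x) (h : x ≤ 1) : sf x = (x + 2) / 3 := by
  unfold sf
  rw [min_eq_right (show (x + 2) / 3 ≤ x + 4 / 9 by linarith), min_eq_right (by linarith),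
    max_eq_right (by linarith)]

theorem sf_surj : Function.Surjective sf := by
  have hc : Continuous sf := by unfold sf; fun_prop
  refine hc.surjective ?_ ?_
  · refine tendsto_atTop_mono (fun x => ?_) tendsto_id
    exact le_max_left _ _
  · refine (tendsto_id (α := ℝ)).congr' ?_
    filter_upwards [eventually_le_atBot (0 : ℝ)] with x hx
    exact (sf_of_nonpos hx).symm

theorem sf_cantor (x : ℝ) : sf x ∈ cantorSet ↔ x ∈ cantorSet := by
  rcases le_or_gt x 0 with h0 | h0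
  · rw [sf_of_nonpos h0]
  rcases le_or_gt 1 x with h1 | h1
  · rw [sf_of_one_le h1]
  rcases le_or_gt x (2 / 9) with h2 | h2
  · rw [sf_1 h0.le h2, mem_lo (x := x) (by linarith)]
  rcases le_or_gt x (1 / 3) with h3 | h3
  · rw [sf_2 h2.le h3, mem_hi (x := x + 4 / 9) (by linarith), mem_lo (x := x) (by linarith),
      mem_hi (x := 3 * x) (by linarith), mem_lo (x := 3 * (x + 4 / 9) - 2) (by linarith)]
    have : 3 * (3 * (x + 4 / 9) - 2) = 3 * (3 * x) - 2 := by ring
    rw [this]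
  · rw [sf_3 h3.le h1.le, mem_hi (x := (x + 2) / 3) (by linarith)]
    have : 3 * ((x + 2) / 3) - 2 = x := by ring
    rw [this]

/-- the shift as an order isomorphism of the line -/
noncomputable def S : ℝ ≃o ℝ := sf_mono.orderIsoOfSurjective sf sf_surj

theorem S_apply (x : ℝ) : S x = sf x := rfl

theorem S_pow_half (n : ℕ) : (S ^ n) (1 / 2) = 1 - (1 / 3) ^ n / 2 := by
  induction n with
  | zero => simp; norm_num
  | succ n ih =>
    rw [pow_succ', RelIso.mul_apply, ih, S_apply]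
    have h1 : (0 : ℝ) < (1 / 3) ^ n := by positivity
    have h2 : ((1 : ℝ) / 3) ^ n ≤ 1 := pow_le_one₀ (by norm_num) (by norm_num)
    rw [sf_3 (by linarith) (by linarith), pow_succ]
    ring

theorem S_pow_third (n : ℕ) : (S ^ n) ((1 / 3) ^ n / 2) = 1 / 2 := by
  induction n with
  | zero => simp
  | succ n ih =>
    rw [pow_succ, RelIso.mul_apply, S_apply]
    have h1 : (0 : ℝ) < (1 / 3) ^ n := by positivity
    have h2 : ((1 : ℝ) / 3) ^ n ≤ 1 := pow_le_one₀ (by norm_num) (by norm_num)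
    rw [sf_1 (by positivity) (by rw [pow_succ]; linarith)]
    rw [← ih]
    congr 1
    rw [pow_succ]
    ring

/-- the orbit of one half -/
noncomputable def orb (n : ℤ) : ℝ := (S ^ n) (1 / 2)

theorem orb_add (m n : ℤ) : orb (m + n) = (S ^ m) (orb n) := by
  unfold orb; rw [zpow_add, RelIso.mul_apply]

theorem orb_zero : orb 0 = 1 / 2 := rfl

theorem orb_one : orb 1 = 5 / 6 := by
  unfold orb
  rw [zpow_one, S_apply, sf_3 (by norm_num) (by norm_num)]; norm_num

theorem orb_natCast (n : ℕ) : orb n = 1 - (1 / 3) ^ n / 2 := by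
  unfold orb; rw [zpow_natCast, S_pow_half]

theorem orb_neg_natCast (n : ℕ) : orb (-(n : ℤ)) = (1 / 3) ^ n / 2 := by
  have h1 := S_pow_third n
  unfold orb
  rw [← h1, zpow_neg, zpow_natCast]
  exact (S ^ n).symm_apply_apply _

theorem orb_succ (n : ℤ) : orb (n + 1) = (S ^ n) (5 / 6) := by rw [orb_add, orb_one]

theorem orb_strictMono : StrictMono orb := by
  refine strictMono_int_of_lt_succ fun n => ?_
  rw [orb_succ]
  exact (S ^ n).strictMono (by norm_num)

theorem exists_orb {y : ℝ} (h0 : 0 < y) (h1 : y < 1) : ∃ n : ℤ, orb n ≤ y ∧ y < orb (n + 1) := by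
  obtain ⟨N, hN⟩ := exists_pow_lt_of_lt_one (show 0 < 1 - y by linarith)
    (show (1 / 3 : ℝ) < 1 by norm_num)
  obtain ⟨M, hM⟩ := exists_pow_lt_of_lt_one h0 (show (1 / 3 : ℝ) < 1 by norm_num)
  have hb : ∀ z : ℤ, orb z ≤ y → z ≤ N := by
    intro z hz
    by_contra hlt
    push Not at hlt
    have e1 := orb_strictMono hlt
    rw [orb_natCast] at e1
    have e2 : (0 : ℝ) < (1 / 3) ^ N := by positivity
    linarith
  have hne : ∃ z : ℤ, orb z ≤ y := ⟨-(M : ℤ), by
    rw [orb_neg_natCast]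
    have e2 : (0 : ℝ) < (1 / 3) ^ M := by positivity
    linarith⟩
  obtain ⟨n, hn1, hn2⟩ := Int.exists_greatest_of_bdd ⟨N, hb⟩ hne
  refine ⟨n, hn1, ?_⟩
  by_contra hcon
  push Not at hcon
  have := hn2 _ hcon
  omega

/-- the subgroup of order isomorphisms fixing a point -/
def fixSub (x : ℝ) : Subgroup (ℝ ≃o ℝ) where
  carrier := {F | F x = x}
  one_mem' := rfl
  mul_mem' := fun {F G} hF hG => by
    change F (G x) = x
    rw [hG, hF]
  inv_mem' := fun {F} hF => by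
    change F⁻¹ x = x
    have : F⁻¹ (F x) = x := RelIso.inv_apply_self F x
    rwa [hF] at this

theorem S_zpow_zero (n : ℤ) : (S ^ n) 0 = 0 :=
  (fixSub 0).zpow_mem (show S ∈ fixSub 0 from sf_of_nonpos le_rfl) n

theorem S_zpow_one (n : ℤ) : (S ^ n) 1 = 1 :=
  (fixSub 1).zpow_mem (show S ∈ fixSub 1 from sf_of_one_le le_rfl) n

theorem S_mem_LineC : S ∈ LineC := sf_cantor

theorem S_zpow_mem (n : ℤ) {x : ℝ} (h : x ∈ Ioo (0 : ℝ) 1) : (S ^ n) x ∈ Ioo (0 : ℝ) 1 := by
  constructor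
  · have := (S ^ n).strictMono h.1
    rwa [S_zpow_zero] at this
  · have := (S ^ n).strictMono h.2
    rwa [S_zpow_one] at this

/-- the parametrisation of the interval -/
noncomputable def th (x : ℝ) : ℝ := (S ^ ⌊x⌋) (1 / 2 + Int.fract x / 3)

theorem th_int_add (n : ℤ) (r : ℝ) (hr : r ∈ Ico (0 : ℝ) 1) : th (n + r) = (S ^ n) (1 / 2 + r / 3) := by
  unfold th
  have h1 : ⌊(n : ℝ) + r⌋ = n := by
    rw [Int.floor_eq_iff]; constructor <;> linarith [hr.1, hr.2]
  have h2 : Int.fract ((n : ℝ) + r) = r := by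
    rw [Int.fract, h1]; ring
  rw [h1, h2]

theorem th_add_one (x : ℝ) : th (x + 1) = S (th x) := by
  unfold th
  rw [Int.floor_add_one, Int.fract_add_one, add_comm, zpow_add, zpow_one, RelIso.mul_apply]

theorem th_int (n : ℤ) : th n = orb n := by
  have := th_int_add n 0 (by simp)
  simpa [orb] using this

theorem th_mem (x : ℝ) : th x ∈ Ioo (0 : ℝ) 1 := by
  apply S_zpow_mem
  have h1 := Int.fract_nonneg x
  have h2 := Int.fract_lt_one x
  constructor <;> linarith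

theorem th_mono : StrictMono th := by
  intro x y hxy
  have hfl : ⌊x⌋ ≤ ⌊y⌋ := Int.floor_le_floor hxy.le
  rcases hfl.eq_or_lt with he | hlt
  · unfold th
    rw [he]
    apply (S ^ ⌊y⌋).strictMono
    have : Int.fract x < Int.fract y := by
      unfold Int.fract
      rw [he]; linarith
    linarith
  · have h1 : th x < orb (⌊x⌋ + 1) := by
      rw [orb_succ]
      apply (S ^ ⌊x⌋).strictMono
      have := Int.fract_lt_one x
      linarith
    have h2 : orb (⌊x⌋ + 1) ≤ orb ⌊y⌋ := orb_strictMono.monotone hlt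
    have h3 : orb ⌊y⌋ ≤ th y := by
      apply (S ^ ⌊y⌋).monotone
      have := Int.fract_nonneg y
      linarith
    linarith

theorem th_surj {y : ℝ} (h0 : 0 < y) (h1 : y < 1) : ∃ x, th x = y := by
  obtain ⟨n, hn1, hn2⟩ := exists_orb h0 h1
  have e1 : (1 / 2 : ℝ) ≤ (S ^ n)⁻¹ y := by
    have := (S ^ n)⁻¹.monotone hn1
    unfold orb at this
    rwa [RelIso.inv_apply_self] at this
  have e2 : (S ^ n)⁻¹ y < 5 / 6 := by
    have := (S ^ n)⁻¹.strictMono hn2
    rw [orb_succ] at this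
    rwa [RelIso.inv_apply_self] at this
  refine ⟨n + 3 * ((S ^ n)⁻¹ y - 1 / 2), ?_⟩
  rw [th_int_add _ _ ⟨by linarith, by linarith⟩]
  have : 1 / 2 + 3 * ((S ^ n)⁻¹ y - 1 / 2) / 3 = (S ^ n)⁻¹ y := by ring
  rw [this, RelIso.apply_inv_self]

/-- the parametrisation of the interval as an order isomorphism -/
noncomputable def Th : ℝ ≃o Ioo (0 : ℝ) 1 :=
  StrictMono.orderIsoOfSurjective (fun x => (⟨th x, th_mem x⟩ : Ioo (0 : ℝ) 1))
    (fun x y h => th_mono h) (fun y => by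
      obtain ⟨x, hx⟩ := th_surj y.2.1 y.2.2
      exact ⟨x, Subtype.ext hx⟩)

theorem Th_val (x : ℝ) : (Th x : ℝ) = th x := rfl

/-- extension by the identity: the underlying function -/
noncomputable def extF (F : ℝ ≃o ℝ) (x : ℝ) : ℝ :=
  if h : x ∈ Ioo (0 : ℝ) 1 then th (F (Th.symm ⟨x, h⟩)) else x

theorem extF_th (F : ℝ ≃o ℝ) (x : ℝ) : extF F (th x) = th (F x) := by
  unfold extF
  rw [dif_pos (th_mem x)]
  have : Th.symm ⟨th x, th_mem x⟩ = x := Th.symm_apply_apply x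
  rw [this]

theorem extF_out (F : ℝ ≃o ℝ) {x : ℝ} (h : x ∉ Ioo (0 : ℝ) 1) : extF F x = x := by
  unfold extF
  rw [dif_neg h]

theorem extF_comp (F G : ℝ ≃o ℝ) (x : ℝ) : extF F (extF G x) = extF (F * G) x := by
  by_cases h : x ∈ Ioo (0 : ℝ) 1
  · obtain ⟨y, rfl⟩ := th_surj h.1 h.2
    rw [extF_th, extF_th, extF_th]; rfl
  · rw [extF_out G h, extF_out F h, extF_out _ h]

theorem extF_one (x : ℝ) : extF 1 x = x := by
  by_cases h : x ∈ Ioo (0 : ℝ) 1
  · obtain ⟨y, rfl⟩ := th_surj h.1 h.2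
    rw [extF_th]; rfl
  · rw [extF_out _ h]

theorem extF_mono (F : ℝ ≃o ℝ) : StrictMono (extF F) := by
  have hin : ∀ x, x ∈ Ioo (0 : ℝ) 1 → extF F x ∈ Ioo (0 : ℝ) 1 := by
    intro x h
    obtain ⟨y, rfl⟩ := th_surj h.1 h.2
    rw [extF_th]; exact th_mem _
  intro x y hxy
  by_cases hx : x ∈ Ioo (0 : ℝ) 1 <;> by_cases hy : y ∈ Ioo (0 : ℝ) 1
  · obtain ⟨a, rfl⟩ := th_surj hx.1 hx.2
    obtain ⟨b, rfl⟩ := th_surj hy.1 hy.2
    rw [extF_th, extF_th]
    exact th_mono (F.strictMono (th_mono.lt_iff_lt.mp hxy))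
  · rw [extF_out F hy]
    have h1 : 1 ≤ y := by
      by_contra h
      exact hy ⟨hx.1.trans hxy, not_le.mp h⟩
    exact (hin x hx).2.trans_le h1
  · rw [extF_out F hx]
    have h1 : x ≤ 0 := by
      by_contra h
      exact hx ⟨not_le.mp h, hxy.trans hy.2⟩
    exact h1.trans_lt (hin y hy).1
  · rw [extF_out F hx, extF_out F hy]; exact hxy

/-- extension by the identity -/
noncomputable def ext : (ℝ ≃o ℝ) →* (ℝ ≃o ℝ) where
  toFun F := (extF_mono F).orderIsoOfSurjective (extF F) fun y =>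
    ⟨extF F⁻¹ y, by rw [extF_comp, mul_inv_cancel, extF_one]⟩
  map_one' := by
    ext x
    exact extF_one x
  map_mul' F G := by
    ext x
    exact (extF_comp F G x).symm

theorem ext_apply (F : ℝ ≃o ℝ) (x : ℝ) : ext F x = extF F x := rfl

/-- the closed set corresponding to the Cantor set -/
def Ct : Set ℝ := {x | th x ∈ cantorSet}

theorem ext_mem_LineC (F : ℝ ≃o ℝ) (h : ∀ x, F x ∈ Ct ↔ x ∈ Ct) : ext F ∈ LineC := by
  intro x
  rw [ext_apply]
  by_cases hx : x ∈ Ioo (0 : ℝ) 1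
  · obtain ⟨y, rfl⟩ := th_surj hx.1 hx.2
    rw [extF_th]
    exact h y
  · rw [extF_out _ hx]

theorem Ct_add_one (x : ℝ) : x + 1 ∈ Ct ↔ x ∈ Ct := by
  change th (x + 1) ∈ cantorSet ↔ th x ∈ cantorSet
  rw [th_add_one]
  exact sf_cantor _

theorem Ct_add_int (x : ℝ) (n : ℤ) : x + n ∈ Ct ↔ x ∈ Ct := by
  induction n using Int.induction_on with
  | zero => simp
  | succ n ih =>
    rw [← ih, ← Ct_add_one (x + ((n : ℤ) : ℝ))]
    push_cast
    rw [add_assoc]
  | pred n ih =>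
    rw [← ih, ← Ct_add_one (x + ((-(n : ℤ) - 1 : ℤ) : ℝ))]
    push_cast
    have : x + (-(n : ℝ) - 1) + 1 = x + -n := by ring
    rw [this]

end Pool.Agent.H618R3.BM
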