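import Pool.Agent.H618R3.BM.Wind

/-!
# From increasing homeomorphisms of the line preserving the Cantor set to mapping classes
-/

set_option autoImplicit false
open Set Topology

namespace Pool.Agent.H618R3.BM

theorem mem_planeCantor {z : ℂ} : z ∈ planeCantor ↔ z.im = 0 ∧ z.re ∈ cantorSet := by
  constructor
  · rintro ⟨x, hx, rfl⟩
    exact ⟨Complex.ofReal_im x, by rwa [Complex.ofReal_re]⟩
  · rintro ⟨h1, h2⟩
    refine ⟨z.re, h2, ?_⟩
    apply Complex.ext <;> simp [h1]

/-- increasing homeomorphisms of the line that preserve the Cantor set -/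
def LineC : Subgroup (ℝ ≃o ℝ) where
  carrier := {F | ∀ x, F x ∈ cantorSet ↔ x ∈ cantorSet}
  one_mem' := fun _ => Iff.rfl
  mul_mem' := fun {F G} hF hG x => (hF (G x)).trans (hG x)
  inv_mem' := fun {F} hF x => by
    have := hF (F⁻¹ x)
    rw [RelIso.apply_inv_self] at this
    exact this.symm

/-- the map `(x, y) ↦ (F x, y)` on the surface -/
noncomputable def surfMap (F : LineC) (z : Surf planeCantor) : Surf planeCantor :=
  ⟨⟨F.1 z.1.re, z.1.im⟩, fun h => z.2 (by
    rw [mem_planeCantor] at h ⊢
    exact ⟨h.1, (F.2 _).mp h.2⟩)⟩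

theorem surfMap_val (F : LineC) (z : Surf planeCantor) :
    (surfMap F z : ℂ) = ⟨F.1 z.1.re, z.1.im⟩ := rfl

theorem surfMap_continuous (F : LineC) : Continuous (surfMap F) := by
  refine Continuous.subtype_mk ?_ _
  have h1 : (fun z : Surf planeCantor => (⟨F.1 z.1.re, z.1.im⟩ : ℂ)) =
      fun z : Surf planeCantor => Complex.equivRealProdCLM.symm (F.1 z.1.re, z.1.im) := by
    funext z
    apply Complex.ext <;> simp
  rw [h1]
  have hF : Continuous F.1 := F.1.continuous
  exact Complex.equivRealProdCLM.symm.continuous.comp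
    ((hF.comp (Complex.continuous_re.comp continuous_subtype_val)).prodMk
      (Complex.continuous_im.comp continuous_subtype_val))

theorem surfMap_mul (F G : LineC) (z : Surf planeCantor) :
    surfMap (F * G) z = surfMap F (surfMap G z) := rfl

theorem surfMap_one (z : Surf planeCantor) : surfMap 1 z = z := rfl

/-- the homeomorphism `(x, y) ↦ (F x, y)` of the surface -/
noncomputable def surfHomeo (F : LineC) : Surf planeCantor ≃ₜ Surf planeCantor where
  toFun := surfMap F
  invFun := surfMap F⁻¹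
  left_inv z := by rw [← surfMap_mul, inv_mul_cancel, surfMap_one]
  right_inv z := by rw [← surfMap_mul, mul_inv_cancel, surfMap_one]
  continuous_toFun := surfMap_continuous F
  continuous_invFun := surfMap_continuous F⁻¹

/-- inner product of `F z - F p` and `z - p` -/
theorem inner_pos (F : ℝ ≃o ℝ) (z p : ℂ) (h : z ≠ p) :
    0 < (((⟨F z.re, z.im⟩ : ℂ) - ⟨F p.re, p.im⟩) * (starRingEnd ℂ) (z - p)).re := by
  rw [Complex.mul_re, Complex.conj_re, Complex.conj_im, Complex.sub_re, Complex.sub_im,
    Complex.sub_re, Complex.sub_im]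
  simp only
  have h1 : (F z.re - F p.re) * (z.re - p.re) - (z.im - p.im) * -(z.im - p.im)
      = (F z.re - F p.re) * (z.re - p.re) + (z.im - p.im) ^ 2 := by ring
  rw [h1]
  rcases lt_trichotomy z.re p.re with h2 | h2 | h2
  · have h3 : F z.re < F p.re := F.strictMono h2
    have h4 : 0 < (F z.re - F p.re) * (z.re - p.re) :=
      mul_pos_of_neg_of_neg (by linarith) (by linarith)
    positivity
  · have h3 : z.im ≠ p.im := fun h3 => h (Complex.ext h2 h3)
    have h4 : 0 < (z.im - p.im) ^ 2 := by
      have : z.im - p.im ≠ 0 := sub_ne_zero.mpr h3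
      positivity
    rw [h2]
    simpa using h4
  · have h3 : F p.re < F z.re := F.strictMono h2
    have h4 : 0 < (F z.re - F p.re) * (z.re - p.re) := mul_pos (by linarith) (by linarith)
    positivity

theorem surfHomeo_plus (F : LineC) : OrientationPreserving (surfHomeo F) := by
  intro p
  refine ⟨univ, Filter.univ_mem, fun γ hγ hper hγp k => ?_⟩
  refine Winds.iff_re_pos (continuous_subtype_val.comp hγ)
    (continuous_subtype_val.comp ((surfHomeo F).continuous.comp hγ)) (fun t => ?_) (fun t => ?_)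
    fun t => ?_
  · simp only [hper]
  · simp only [hper]
  · exact inner_pos F.1 (γ t) p fun h => (hγp t).2 (Subtype.ext h)

/-- the homomorphism to the group of orientation preserving homeomorphisms -/
noncomputable def toPlus : LineC →* PlusGroup planeCantor where
  toFun F := ⟨surfHomeo F, surfHomeo_plus F⟩
  map_one' := by
    apply Subtype.ext
    ext z
    rfl
  map_mul' F G := by
    apply Subtype.ext
    ext z
    rfl

/-- the homomorphism to the mapping class group -/
noncomputable def toMap : LineC →* Map planeCantor :=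
  (QuotientGroup.mk' (Homeo0Plus planeCantor)).comp toPlus

/-- gaps of the Cantor set are dense -/
theorem exists_gap {x y : ℝ} (h : x < y) : ∃ z, x < z ∧ z < y ∧ z ∉ cantorSet := by
  by_contra hcon
  push Not at hcon
  let f : Ioo x y → (ℕ → Bool) := fun z => cantorSetHomeomorphNatToBool ⟨z.1, hcon z.1 z.2.1 z.2.2⟩
  have hf : Continuous f := cantorSetHomeomorphNatToBool.continuous.comp
    (continuous_subtype_val.subtype_mk _)
  have hpre : IsPreconnected (univ : Set (Ioo x y)) := by
    have : PreconnectedSpace (Ioo x y) := isPreconnected_iff_preconnectedSpace.mp isPreconnected_Ioo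
    exact isPreconnected_univ
  have hsub : (f '' univ).Subsingleton := (hpre.image f hf.continuousOn).subsingleton
  have ha : x < (2 * x + y) / 3 ∧ (2 * x + y) / 3 < y := ⟨by linarith, by linarith⟩
  have hb : x < (x + 2 * y) / 3 ∧ (x + 2 * y) / 3 < y := ⟨by linarith, by linarith⟩
  have h1 : f ⟨_, ha⟩ = f ⟨_, hb⟩ := hsub (mem_image_of_mem f (mem_univ _))
    (mem_image_of_mem f (mem_univ _))
  have h2 := congrArg Subtype.val (cantorSetHomeomorphNatToBool.injective h1)
  simp only at h2
  linarith

theorem circ_mem_surf (a b : ℝ) (ha : a ∉ cantorSet) (hb : b ∉ cantorSet) (h : a < b) (t : ℝ) :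
    circ ((a + b) / 2) ((b - a) / 2) t ∉ planeCantor := by
  rw [mem_planeCantor, circ_im, circ_re]
  rintro ⟨h1, h2⟩
  have hρ : (b - a) / 2 ≠ 0 := by
    have : 0 < (b - a) / 2 := by linarith
    exact this.ne'
  have h3 : Real.sin (2 * Real.pi * t) = 0 := by
    rcases mul_eq_zero.mp h1 with h | h
    · exact absurd h hρ
    · exact h
  rcases Real.sin_eq_zero_iff_cos_eq.mp h3 with h4 | h4
  · rw [h4] at h2
    apply hb
    have : (a + b) / 2 + (b - a) / 2 * 1 = b := by ring
    rwa [this] at h2
  · rw [h4] at h2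
    apply ha
    have : (a + b) / 2 + (b - a) / 2 * (-1) = a := by ring
    rwa [this] at h2

/-- A mapping class of the form considered is trivial only if it fixes the Cantor set. -/
theorem fix_of_isotopic (F : LineC) (h : toPlus F ∈ Homeo0Plus planeCantor) (c : ℝ)
    (hc : c ∈ cantorSet) : F.1 c = c := by
  obtain ⟨Φ, hΦ0, hΦ1, -⟩ := Subgroup.mem_subgroupOf.mp h
  by_contra hne
  -- gap points
  obtain ⟨a, b, hac, hcb, ha, hb, hout⟩ : ∃ a b, a < c ∧ c < b ∧ a ∉ cantorSet ∧ b ∉ cantorSet ∧
      (F.1 c < a ∨ b < F.1 c) := by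
    rcases lt_or_gt_of_ne hne with h1 | h1
    · obtain ⟨a, ha1, ha2, ha3⟩ := exists_gap h1
      obtain ⟨b, hb1, hb2, hb3⟩ := exists_gap (show c < c + 1 by linarith)
      exact ⟨a, b, ha2, hb1, ha3, hb3, Or.inl ha1⟩
    · obtain ⟨b, hb1, hb2, hb3⟩ := exists_gap h1
      obtain ⟨a, ha1, ha2, ha3⟩ := exists_gap (show c - 1 < c by linarith)
      exact ⟨a, b, ha2, hb1, ha3, hb3, Or.inr hb2⟩
  have hab : a < b := hac.trans hcb
  let γ : ℝ → Surf planeCantor := fun t => ⟨circ ((a + b) / 2) ((b - a) / 2) t,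
    circ_mem_surf a b ha hb hab t⟩
  have hγ : Continuous γ := (circ_continuous _ _).subtype_mk _
  have hγp : ∀ t, γ (t + 1) = γ t := fun t => Subtype.ext (circ_periodic _ _ t)
  have hc' : (F.1 c) ∈ cantorSet := (F.2 c).mpr hc
  let Γ : unitInterval × ℝ → ℂ := fun z => (Φ (z.1, γ z.2) : ℂ)
  have hΓ : Continuous Γ := by
    refine continuous_subtype_val.comp (Φ.continuous.comp ?_)
    exact continuous_fst.prodMk (hγ.comp continuous_snd)
  have hmem : (((F.1 c : ℝ)) : ℂ) ∈ planeCantor := ⟨_, hc', rfl⟩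
  have hneΓ : ∀ z, Γ z ≠ ((F.1 c : ℝ) : ℂ) := by
    intro z hz
    exact (Φ (z.1, γ z.2)).2 (by
      change Γ z ∈ planeCantor
      rw [hz]; exact hmem)
  have hperΓ : ∀ s t, Γ (s, t + 1) = Γ (s, t) := fun s t => by
    change (Φ (s, γ (t + 1)) : ℂ) = (Φ (s, γ t) : ℂ)
    rw [hγp]
  have h0 : Winds (fun t => Γ (0, t)) ((F.1 c : ℝ) : ℂ) 0 := by
    have e : (fun t => Γ (0, t)) = circ ((a + b) / 2) ((b - a) / 2) := by
      funext t
      change (Φ (0, γ t) : ℂ) = _
      rw [hΦ0]; rfl
    rw [e]
    apply circ_winds_zero _ _ _ (by linarith)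
    rcases hout with h1 | h1
    · rw [abs_of_pos (by linarith)]; linarith
    · rw [abs_of_neg (by linarith)]; linarith
  have h1 : Winds (fun t => Γ (1, t)) ((F.1 c : ℝ) : ℂ) 1 := by
    have e : (fun t => Γ (1, t)) = fun t => (surfHomeo F (γ t) : ℂ) := by
      funext t
      change (Φ (1, γ t) : ℂ) = _
      rw [hΦ1]; rfl
    rw [e]
    have hw : Winds (circ ((a + b) / 2) ((b - a) / 2)) (c : ℂ) 1 := by
      apply circ_winds_one
      rw [abs_lt]; constructor <;> linarith
    refine hw.of_re_pos (circ_continuous _ _) (continuous_subtype_val.comp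
      ((surfHomeo F).continuous.comp hγ)) (circ_periodic _ _) (fun t => ?_) fun t => ?_
    · simp only [hγp]
    · have hne' : circ ((a + b) / 2) ((b - a) / 2) t ≠ (c : ℂ) := by
        intro h5
        apply circ_mem_surf a b ha hb hab t
        rw [h5]
        exact ⟨c, hc, rfl⟩
      have h6 := inner_pos F.1 _ _ hne'
      have h7 : (⟨F.1 (c : ℂ).re, (c : ℂ).im⟩ : ℂ) = ((F.1 c : ℝ) : ℂ) := by
        apply Complex.ext <;> simp
      rw [h7] at h6
      exact h6
  have := Winds.homotopy hΓ hneΓ hperΓ h0 h1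
  norm_num at this

end Pool.Agent.H618R3.BM
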