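import Pool.Agent.H618R3.BM.Defs

/-!
# Winding numbers
-/

set_option autoImplicit false
open Set Topology

namespace Pool.Agent.H618R3.BM

/-- comparison of winding numbers -/
theorem Winds.of_re_pos {γ δ : ℝ → ℂ} {p q : ℂ} {k : ℤ} (h : Winds γ p k) (hγ : Continuous γ)
    (hδ : Continuous δ) (hγp : ∀ t, γ (t + 1) = γ t) (hδp : ∀ t, δ (t + 1) = δ t)
    (hpos : ∀ t, 0 < ((δ t - q) * (starRingEnd ℂ) (γ t - p)).re) : Winds δ q k := by
  obtain ⟨θ, hθ, hθγ, hθp⟩ := h
  set w : ℝ → ℂ := fun t => (δ t - q) * (starRingEnd ℂ) (γ t - p) with hw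
  have hwc : Continuous w := by
    refine (hδ.sub continuous_const).mul ?_
    exact Complex.continuous_conj.comp (hγ.sub continuous_const)
  have harg : Continuous fun t => Complex.arg (w t) := by
    rw [continuous_iff_continuousAt]
    intro t
    exact ContinuousAt.comp (f := w) (g := Complex.arg)
      (Complex.continuousAt_arg (Or.inl (hpos t))) hwc.continuousAt
  refine ⟨fun t => θ t + Complex.arg (w t), hθ.add harg, fun t => ?_, fun t => ?_⟩
  · have h1 := hθγ t
    have hne : γ t - p ≠ 0 := by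
      intro h0
      have := hpos t
      rw [h0] at this
      simp at this
    have h2 : (‖γ t - p‖ : ℂ) ≠ 0 := by
      rw [Complex.ofReal_ne_zero]
      exact norm_ne_zero_iff.mpr hne
    have h3 : w t = (‖w t‖ : ℂ) * Complex.exp (Complex.arg (w t) * Complex.I) :=
      (Complex.norm_mul_exp_arg_mul_I (w t)).symm
    have h4 : ‖w t‖ = ‖δ t - q‖ * ‖γ t - p‖ := by
      rw [hw]
      simp only [norm_mul, Complex.norm_conj]
    have h5 : w t * (γ t - p) = (δ t - q) * (‖γ t - p‖ : ℂ) ^ 2 := by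
      rw [hw]
      simp only
      rw [mul_assoc, ← Complex.normSq_eq_conj_mul_self, Complex.normSq_eq_norm_sq]
      push_cast
      ring
    have h6 : (δ t - q) * (‖γ t - p‖ : ℂ) ^ 2
        = (‖δ t - q‖ : ℂ) * Complex.exp ((θ t + Complex.arg (w t) : ℂ) * Complex.I)
          * (‖γ t - p‖ : ℂ) ^ 2 := by
      rw [← h5]
      calc w t * (γ t - p) = ((‖w t‖ : ℂ) * Complex.exp (Complex.arg (w t) * Complex.I)) *
          ((‖γ t - p‖ : ℂ) * Complex.exp (θ t * Complex.I)) := by rw [← h3, ← h1]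
        _ = _ := by
          rw [h4, add_mul, Complex.exp_add]
          push_cast
          ring
    have h7 := mul_right_cancel₀ (pow_ne_zero 2 h2) h6
    rw [h7]
    push_cast
    congr 1
    · rw [← h7]
  · have h1 : w (t + 1) = w t := by rw [hw]; simp only [hγp, hδp]
    simp only [h1, hθp]
    ring

theorem Winds.iff_re_pos {γ δ : ℝ → ℂ} {p q : ℂ} {k : ℤ} (hγ : Continuous γ)
    (hδ : Continuous δ) (hγp : ∀ t, γ (t + 1) = γ t) (hδp : ∀ t, δ (t + 1) = δ t)
    (hpos : ∀ t, 0 < ((δ t - q) * (starRingEnd ℂ) (γ t - p)).re) :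
    Winds γ p k ↔ Winds δ q k := by
  refine ⟨fun h => h.of_re_pos hγ hδ hγp hδp hpos, fun h => h.of_re_pos hδ hγ hδp hγp fun t => ?_⟩
  have := hpos t
  simp only [Complex.mul_re, Complex.conj_re, Complex.conj_im] at this ⊢
  linarith

/-- a continuous function with values in `2πℤ` is constant -/
theorem const_of_int {X : Type} [TopologicalSpace X] [PreconnectedSpace X] (g : X → ℝ)
    (hg : Continuous g) (h : ∀ x, ∃ n : ℤ, g x = 2 * Real.pi * n) (x y : X) : g x = g y := by
  choose n hn using h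
  have h1 : Continuous fun x => ((n x : ℤ) : ℝ) := by
    have : (fun x => ((n x : ℤ) : ℝ)) = fun x => g x / (2 * Real.pi) := by
      funext x
      rw [hn x]
      have := Real.pi_pos
      field_simp
    rw [this]
    exact hg.div_const _
  have h2 : Continuous n := by
    exact Int.isClosedEmbedding_coe_real.isEmbedding.continuous_iff.mpr h1
  have h3 : n x = n y := PreconnectedSpace.constant inferInstance h2
  rw [hn, hn, h3]

/-- homotopy invariance of the winding number -/
theorem Winds.homotopy {Γ : unitInterval × ℝ → ℂ} {p : ℂ} (hΓ : Continuous Γ)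
    (hne : ∀ z, Γ z ≠ p) (hper : ∀ s t, Γ (s, t + 1) = Γ (s, t)) {k l : ℤ}
    (h0 : Winds (fun t => Γ (0, t)) p k) (h1 : Winds (fun t => Γ (1, t)) p l) : k = l := by
  obtain ⟨θ, hθ, hθγ, hθp⟩ := h0
  obtain ⟨θ', hθ', hθγ', hθp'⟩ := h1
  let H : C(unitInterval × ℝ, {z : ℂ // z ≠ 0}) :=
    ⟨fun z => ⟨Γ z - p, sub_ne_zero.mpr (hne z)⟩, (hΓ.sub continuous_const).subtype_mk _⟩
  have hlogc : Continuous fun t : ℝ => Real.log ‖Γ (0, t) - p‖ := by
    refine Continuous.log ?_ fun t => norm_ne_zero_iff.mpr (sub_ne_zero.mpr (hne _))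
    fun_prop
  let f : C(ℝ, ℂ) := ⟨fun t => (Real.log ‖Γ (0, t) - p‖ : ℂ) + θ t * Complex.I, by fun_prop⟩
  have hf : ∀ t, H (0, t) = (⟨Complex.exp (f t), Complex.exp_ne_zero _⟩ : {z : ℂ // z ≠ 0}) := by
    intro t
    apply Subtype.ext
    change Γ (0, t) - p = Complex.exp ((Real.log ‖Γ (0, t) - p‖ : ℂ) + θ t * Complex.I)
    rw [Complex.exp_add, ← Complex.ofReal_exp, Real.exp_log
      (norm_pos_iff.mpr (sub_ne_zero.mpr (hne _)))]
    exact hθγ t
  set L := Complex.isCoveringMap_exp.liftHomotopy H f hf with hL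
  have hL1 := Complex.isCoveringMap_exp.liftHomotopy_lifts H f hf
  rw [← hL] at hL1
  have hLexp : ∀ z, Complex.exp (L z) = Γ z - p := by
    intro z
    have := congrArg Subtype.val (congrFun hL1 z)
    exact this
  have hL0 : ∀ t, L (0, t) = f t := fun t =>
    Complex.isCoveringMap_exp.liftHomotopy_zero H f hf t
  -- the increments
  have hinc : ∀ z : unitInterval × ℝ, ∃ n : ℤ, (L (z.1, z.2 + 1)).im - (L z).im = 2 * Real.pi * n := by
    rintro ⟨s, t⟩
    have h1 : Complex.exp (L (s, t + 1)) = Complex.exp (L (s, t)) := by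
      rw [hLexp, hLexp, hper]
    obtain ⟨n, hn⟩ := Complex.exp_eq_exp_iff_exists_int.mp h1
    refine ⟨n, ?_⟩
    simp only
    rw [hn]
    simp
    ring
  have hc1 := const_of_int (fun z : unitInterval × ℝ => (L (z.1, z.2 + 1)).im - (L z).im)
    (by fun_prop) hinc
  have hinc1 : ∀ t, (L (1, t + 1)).im - (L (1, t)).im = 2 * Real.pi * k := by
    intro t
    have h2 := hc1 (1, t) (0, t)
    simp only at h2
    rw [h2, hL0, hL0]
    simp only [f, ContinuousMap.coe_mk, Complex.add_im, Complex.ofReal_im, Complex.mul_im,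
      Complex.ofReal_re, Complex.I_im, Complex.I_re]
    rw [hθp]
    ring
  have hdiff : ∀ t, ∃ n : ℤ, (L (1, t)).im - θ' t = 2 * Real.pi * n := by
    intro t
    have h2 : Complex.exp (L (1, t)) = Complex.exp ((Real.log ‖Γ (1, t) - p‖ : ℂ) +
        θ' t * Complex.I) := by
      rw [hLexp, Complex.exp_add, ← Complex.ofReal_exp, Real.exp_log
        (norm_pos_iff.mpr (sub_ne_zero.mpr (hne _)))]
      exact hθγ' t
    obtain ⟨n, hn⟩ := Complex.exp_eq_exp_iff_exists_int.mp h2
    refine ⟨n, ?_⟩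
    rw [hn]
    simp
    ring
  have hc2 := const_of_int (fun t : ℝ => (L (1, t)).im - θ' t) (by fun_prop) hdiff
  have h3 := hc2 1 0
  have h4 := hinc1 0
  have h5 := hθp' 0
  simp only [zero_add] at h3 h4 h5
  have h6 : 2 * Real.pi * (k : ℝ) = 2 * Real.pi * l := by linarith
  have h7 : (2 * Real.pi) ≠ 0 := by positivity
  exact_mod_cast mul_left_cancel₀ h7 h6

/-- a circle -/
noncomputable def circ (m ρ : ℝ) (t : ℝ) : ℂ := m + ρ * Complex.exp (2 * Real.pi * t * Complex.I)

theorem circ_continuous (m ρ : ℝ) : Continuous (circ m ρ) := by unfold circ; fun_prop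

theorem circ_periodic (m ρ : ℝ) (t : ℝ) : circ m ρ (t + 1) = circ m ρ t := by
  unfold circ
  congr 2
  push_cast
  rw [mul_add, add_mul, Complex.exp_add]
  rw [mul_one, Complex.exp_two_pi_mul_I, mul_one]

theorem circ_re (m ρ t : ℝ) : (circ m ρ t).re = m + ρ * Real.cos (2 * Real.pi * t) := by
  unfold circ
  have : (2 * Real.pi * t * Complex.I : ℂ) = ((2 * Real.pi * t : ℝ) : ℂ) * Complex.I := by
    push_cast; ring
  rw [this, Complex.add_re, Complex.re_ofReal_mul, Complex.exp_ofReal_mul_I_re, Complex.ofReal_re]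

theorem circ_im (m ρ t : ℝ) : (circ m ρ t).im = ρ * Real.sin (2 * Real.pi * t) := by
  unfold circ
  have : (2 * Real.pi * t * Complex.I : ℂ) = ((2 * Real.pi * t : ℝ) : ℂ) * Complex.I := by
    push_cast; ring
  rw [this, Complex.add_im, Complex.im_ofReal_mul, Complex.exp_ofReal_mul_I_im, Complex.ofReal_im,
    zero_add]

theorem circ_winds_base : Winds (circ 0 1) 0 1 := by
  refine ⟨fun t => 2 * Real.pi * t, by fun_prop, fun t => ?_, fun t => by push_cast; ring⟩
  have h1 : circ 0 1 t = Complex.exp (((2 * Real.pi * t : ℝ) : ℂ) * Complex.I) := by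
    unfold circ
    push_cast
    ring_nf
  rw [sub_zero, h1, Complex.norm_exp_ofReal_mul_I]
  simp

/-- a circle winds once around each point (on the axis) of the open disc -/
theorem circ_winds_one (m ρ c : ℝ) (h : |m - c| < ρ) : Winds (circ m ρ) c 1 := by
  refine circ_winds_base.of_re_pos (circ_continuous 0 1) (circ_continuous m ρ) (circ_periodic 0 1)
    (circ_periodic m ρ) fun t => ?_
  rw [Complex.mul_re, Complex.conj_re, Complex.conj_im, sub_zero, Complex.sub_re, Complex.sub_im,
    circ_re, circ_im, circ_re, circ_im, Complex.ofReal_re, Complex.ofReal_im]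
  have h1 := Real.cos_sq_add_sin_sq (2 * Real.pi * t)
  set u := Real.cos (2 * Real.pi * t)
  set v := Real.sin (2 * Real.pi * t)
  have h2 : |u| ≤ 1 := Real.abs_cos_le_one _
  have h3 : (m + ρ * u - c) * (0 + 1 * u) - (ρ * v - 0) * -(1 * v) = ρ * (u ^ 2 + v ^ 2) +
    (m - c) * u := by ring
  rw [h3, h1]
  have h4 : |(m - c) * u| ≤ |m - c| := by
    rw [abs_mul]
    exact mul_le_of_le_one_right (abs_nonneg _) h2
  have h5 := abs_le.mp h4
  linarith [h5.1]

/-- a circle does not wind around a point of the axis outside the disc -/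
theorem circ_winds_zero (m ρ c : ℝ) (hρ : 0 ≤ ρ) (h : ρ < |m - c|) : Winds (circ m ρ) c 0 := by
  have hne : (m - c) ≠ 0 := by
    intro h0
    rw [h0, abs_zero] at h
    linarith
  have hbase : Winds (fun _ => ((m - c : ℝ) : ℂ)) 0 0 := by
    refine ⟨fun _ => Complex.arg ((m - c : ℝ) : ℂ), continuous_const, fun t => ?_, fun t => by simp⟩
    rw [sub_zero]
    exact (Complex.norm_mul_exp_arg_mul_I _).symm
  refine hbase.of_re_pos continuous_const (circ_continuous m ρ) (fun _ => rfl)
    (circ_periodic m ρ) fun t => ?_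
  rw [Complex.mul_re, Complex.conj_re, Complex.conj_im, sub_zero, Complex.sub_re, Complex.sub_im,
    circ_re, circ_im, Complex.ofReal_re, Complex.ofReal_im, Complex.ofReal_re, Complex.ofReal_im]
  set u := Real.cos (2 * Real.pi * t)
  set v := Real.sin (2 * Real.pi * t)
  have h2 : |u| ≤ 1 := Real.abs_cos_le_one _
  have h3 : (m + ρ * u - c) * (m - c) - (ρ * v - 0) * -0 = |m - c| * |m - c| + (m - c) * ρ * u := by
    rw [abs_mul_abs_self]; ring
  rw [h3]
  have h4 : |(m - c) * ρ * u| ≤ |m - c| * ρ := by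
    rw [abs_mul, abs_mul, abs_of_nonneg hρ]
    exact mul_le_of_le_one_right (by positivity) h2
  have h5 := abs_le.mp h4
  have h6 : 0 < |m - c| := abs_pos.mpr hne
  nlinarith [h5.1]

end Pool.Agent.H618R3.BM
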